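import Pool.Agent.H4.TA.Targets2

set_option autoImplicit false

open Finset Filter Topology Pool.Agent.H43.TC Pool.Agent.H4.TA

namespace Pool.Agent.H20.TAS

/-- Harmonic numbers. -/
noncomputable def hn (n : ℕ) : ℝ := ∑ i ∈ range n, 1 / ((i : ℝ) + 1)

theorem hn_eq (n : ℕ) : hn n = ((harmonic n : ℚ) : ℝ) := by
  unfold hn harmonic
  push_cast
  exact sum_congr rfl fun i _ => one_div _

theorem hn_log (t : ℕ) (ht : 2 ≤ t) :
    Real.log t - Real.log 2 ≤ hn (t / 2) ∧ hn (t / 2) ≤ 1 + Real.log t := by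
  rw [hn_eq]
  have h1 := log_add_one_le_harmonic (t / 2)
  have h2 := harmonic_le_one_add_log (t / 2)
  have h0 : (0 : ℝ) < (t : ℝ) := by exact_mod_cast (by omega : 0 < t)
  constructor
  · refine le_trans ?_ h1
    rw [← Real.log_div h0.ne' (by norm_num)]
    refine Real.log_le_log (by positivity) ?_
    have h3 : t ≤ 2 * (t / 2 + 1) := by omega
    have h4 : (t : ℝ) ≤ 2 * ((t / 2 : ℕ) + 1 : ℝ) := by exact_mod_cast h3
    push_cast
    linarith
  · refine h2.trans ?_
    have h3 : Real.log ((t / 2 : ℕ) : ℝ) ≤ Real.log t := by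
      refine Real.log_le_log ?_ ?_
      · exact_mod_cast (by omega : 0 < t / 2)
      · exact_mod_cast Nat.div_le_self t 2
    linarith

theorem hn_tend : Tendsto (fun t : ℕ => hn (t / 2) / Real.log t) atTop (𝓝 1) := by
  have hlog : Tendsto (fun t : ℕ => Real.log (t : ℝ)) atTop atTop :=
    Real.tendsto_log_atTop.comp tendsto_natCast_atTop_atTop
  have hinv : Tendsto (fun t : ℕ => (Real.log (t : ℝ))⁻¹) atTop (𝓝 0) :=
    tendsto_inv_atTop_zero.comp hlog
  have hlo : Tendsto (fun t : ℕ => 1 - Real.log 2 * (Real.log (t : ℝ))⁻¹) atTop (𝓝 1) := by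
    have := (hinv.const_mul (Real.log 2)).const_sub 1
    simpa using this
  have hup : Tendsto (fun t : ℕ => (Real.log (t : ℝ))⁻¹ + 1) atTop (𝓝 1) := by
    have := hinv.add_const 1
    simpa using this
  refine tendsto_of_tendsto_of_tendsto_of_le_of_le' hlo hup ?_ ?_
  · filter_upwards [eventually_ge_atTop 2, hlog.eventually_gt_atTop 0] with t ht hpos
    rw [le_div_iff₀ hpos, sub_mul, mul_assoc, inv_mul_cancel₀ hpos.ne', mul_one, one_mul]
    exact (hn_log t ht).1
  · filter_upwards [eventually_ge_atTop 2, hlog.eventually_gt_atTop 0] with t ht hpos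
    rw [div_le_iff₀ hpos, add_mul, inv_mul_cancel₀ hpos.ne', one_mul]
    exact (hn_log t ht).2

theorem g_eq (hP2E : T_P2E) (t : ℕ) : ∑ j ∈ range (t + 1), pp 2 j =
    ∑ m ∈ range (t / 2 + 1), ((m.centralBinom : ℝ) / 4 ^ m) ^ 2 := by
  have heven : ∀ n : ℕ, ∑ j ∈ range (2 * n + 1), pp 2 j =
      ∑ m ∈ range (n + 1), ((m.centralBinom : ℝ) / 4 ^ m) ^ 2 := by
    intro n
    induction n with
    | zero =>
      have := (hP2E 0).1
      simpa using this
    | succ n ih =>
      have h1 : 2 * (n + 1) + 1 = 2 * n + 1 + 1 + 1 := by ring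
      rw [h1, sum_range_succ, sum_range_succ, ih, (hP2E n).2, sum_range_succ _ (n + 1),
        add_zero]
      congr 1
      have := (hP2E (n + 1)).1
      have h2 : 2 * (n + 1) = 2 * n + 1 + 1 := by ring
      rw [h2] at this
      exact this
  rcases Nat.even_or_odd' t with ⟨n, h | h⟩
  · subst h
    rw [heven n, Nat.mul_div_cancel_left n (by norm_num)]
  · subst h
    have h1 : (2 * n + 1) / 2 = n := by omega
    rw [sum_range_succ, heven n, (hP2E n).2, add_zero, h1]

theorem pf_GLG (hP2E : T_P2E) (hWAL : T_WAL) : T_GLG := by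
  unfold T_GLG
  unfold T_WAL at hWAL
  set a : ℕ → ℝ := fun m => ((m.centralBinom : ℝ) / 4 ^ m) ^ 2 with ha
  -- the difference is small
  have hH : Tendsto hn atTop atTop := by
    have := Real.tendsto_sum_range_one_div_nat_succ_atTop
    exact this
  have ho : (fun i : ℕ => a (i + 1) - 1 / Real.pi * (1 / ((i : ℝ) + 1))) =o[atTop]
      fun i : ℕ => 1 / ((i : ℝ) + 1) := by
    rw [Asymptotics.isLittleO_iff_tendsto']
    · have h1 := (hWAL.comp (tendsto_add_atTop_nat 1)).sub_const (1 / Real.pi)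
      rw [sub_self] at h1
      refine h1.congr fun i => ?_
      have h2 : (i : ℝ) + 1 ≠ 0 := by positivity
      simp only [Function.comp_apply, ha]
      push_cast
      field_simp
    · refine Eventually.of_forall fun i h => ?_
      exfalso
      have : (0 : ℝ) < 1 / ((i : ℝ) + 1) := by positivity
      exact this.ne' h
  have hsum := ho.sum_range (fun i => by positivity) hH
  have hA : Tendsto (fun n : ℕ => (∑ m ∈ range (n + 1), a m) / hn n) atTop
      (𝓝 (1 / Real.pi)) := by
    have h1 : Tendsto (fun n : ℕ => (∑ i ∈ range n,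
        (a (i + 1) - 1 / Real.pi * (1 / ((i : ℝ) + 1)))) / hn n) atTop (𝓝 0) :=
      hsum.tendsto_div_nhds_zero
    have h2 : Tendsto (fun n : ℕ => a 0 / hn n) atTop (𝓝 0) :=
      Tendsto.div_atTop tendsto_const_nhds hH
    have h3 := (h1.add h2).add_const (1 / Real.pi)
    rw [add_zero, zero_add] at h3
    refine h3.congr' ?_
    filter_upwards [hH.eventually_gt_atTop 0] with n hn0
    have h4 : hn n ≠ 0 := hn0.ne'
    rw [sum_range_succ', sum_sub_distrib, ← mul_sum]
    have h5 : ∑ i ∈ range n, 1 / ((i : ℝ) + 1) = hn n := rfl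
    rw [h5]
    field_simp
    ring
  have hdiv : Tendsto (fun t : ℕ => t / 2) atTop atTop := Nat.tendsto_div_const_atTop (by norm_num)
  have h6 := (hA.comp hdiv).mul hn_tend
  rw [mul_one] at h6
  refine h6.congr' ?_
  filter_upwards [(hH.comp hdiv).eventually_gt_atTop 0] with t ht
  have h7 : hn (t / 2) ≠ 0 := by
    have : 0 < hn (t / 2) := ht
    exact this.ne'
  rw [g_eq hP2E t]
  simp only [Function.comp_apply]
  rw [div_mul_div_cancel₀ h7]

end Pool.Agent.H20.TAS
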