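import Pool.Agent.H4.TA.Targets

set_option autoImplicit false

namespace Pool.Agent.H20.TAS

open Finset Pool.Agent.H43.TC Pool.Agent.H4.TA

theorem sl2_one (q : ℕ → ℝ) (hq : Antitone q) (hpos : ∀ n, 0 < q n)
    (hsv : ∀ (M : ℕ) (e : ℝ), 1 ≤ M → 0 < e → ∃ n₀ : ℕ, ∀ n s, n₀ ≤ n → n ≤ s → s ≤ M * n →
      q n ≤ (1 + e) * q s)
    (B : ℝ) (hB1 : 1 ≤ B) (hB : ∀ t : ℕ, ∑ s ∈ range (t + 1), q s ≤ B * ((t + 1) * q t))
    (e : ℝ) (he : 0 < e) (he1 : e ≤ 1) : ∃ t₀ : ℕ, ∀ t, t₀ ≤ t →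
      ∑ s ∈ range (t + 1), q s ≤ (1 + e) * ((t + 1) * q t) := by
  obtain ⟨M, hM⟩ := exists_nat_ge (8 * B / e)
  have hMB : 8 * B ≤ M * e := by
    rwa [div_le_iff₀ he] at hM
  have hMpos : 0 < M := by
    rcases Nat.eq_zero_or_pos M with h | h
    · rw [h] at hMB
      simp at hMB
      linarith
    · exact h
  obtain ⟨n₀, hn₀⟩ := hsv (2 * M) (e / 4) (by omega) (by positivity)
  refine ⟨M * (n₀ + 1), ?_⟩
  intro t ht
  set m := t / M with hm
  have hm1 : n₀ + 1 ≤ m := by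
    rw [hm, Nat.le_div_iff_mul_le hMpos]
    rw [mul_comm]
    exact ht
  have hmt : m ≤ t := Nat.div_le_self t M
  have hMm : M * m ≤ t := Nat.mul_div_le t M
  have htM : t < M * (m + 1) := Nat.lt_mul_div_succ t hMpos
  have ht2 : t ≤ 2 * M * m := by
    have : M * (m + 1) ≤ 2 * M * m := by nlinarith
    omega
  have h1 : q m ≤ (1 + e / 4) * q t := hn₀ m t (by omega) hmt ht2
  have h2 : ∑ s ∈ range (t + 1), q s ≤ (B * (m + 1) + (t + 1)) * q m := by
    have hsplit : ∑ s ∈ range (t + 1), q s =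
        ∑ s ∈ range (m + 1), q s + ∑ s ∈ Ico (m + 1) (t + 1), q s := by
      rw [range_eq_Ico, range_eq_Ico, sum_Ico_consecutive q (by omega) (by omega)]
    have h3 : ∑ s ∈ Ico (m + 1) (t + 1), q s ≤ (t + 1) * q m := by
      calc ∑ s ∈ Ico (m + 1) (t + 1), q s ≤ ∑ _s ∈ Ico (m + 1) (t + 1), q m := by
            refine sum_le_sum fun s hs => ?_
            rw [mem_Ico] at hs
            exact hq (by omega)
        _ = ((t + 1 - (m + 1) : ℕ) : ℝ) * q m := by rw [sum_const, Nat.card_Ico, nsmul_eq_mul]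
        _ ≤ (t + 1) * q m := by
            refine mul_le_mul_of_nonneg_right ?_ (hpos m).le
            have : ((t + 1 - (m + 1) : ℕ) : ℝ) ≤ ((t + 1 : ℕ) : ℝ) :=
              Nat.cast_le.mpr (Nat.sub_le _ _)
            exact this.trans (by rw [Nat.cast_add, Nat.cast_one])
    rw [hsplit]
    have h4 := hB m
    calc ∑ s ∈ range (m + 1), q s + ∑ s ∈ Ico (m + 1) (t + 1), q s
        ≤ B * ((m + 1) * q m) + (t + 1) * q m := add_le_add h4 h3
      _ = _ := by ring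
  have h5 : B * ((m : ℝ) + 1) ≤ e / 4 * (t + 1) := by
    have hMm' : (M : ℝ) * m ≤ t := by exact_mod_cast hMm
    have hMt : (M : ℝ) ≤ t := by
      have : M ≤ t := by nlinarith
      exact_mod_cast this
    have h6 : B * ((m : ℝ) + 1) * 8 ≤ (M * e) * (m + 1) := by
      nlinarith [(Nat.cast_nonneg m : (0 : ℝ) ≤ m)]
    have h7 : (M * e) * ((m : ℝ) + 1) = e * (M * m + M) := by ring
    have h8 : e * ((M : ℝ) * m + M) ≤ e * (t + t) :=
      mul_le_mul_of_nonneg_left (by linarith) he.le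
    nlinarith
  have hq0 := hpos t
  have ht0 : (0 : ℝ) < (t : ℝ) + 1 := by positivity
  calc ∑ s ∈ range (t + 1), q s ≤ (B * (m + 1) + (t + 1)) * q m := h2
    _ ≤ (e / 4 * (t + 1) + (t + 1)) * q m :=
        mul_le_mul_of_nonneg_right (by linarith) (hpos m).le
    _ ≤ (e / 4 * (t + 1) + (t + 1)) * ((1 + e / 4) * q t) :=
        mul_le_mul_of_nonneg_left h1 (by positivity)
    _ = ((1 + e / 4) * (1 + e / 4)) * ((t + 1) * q t) := by ring
    _ ≤ (1 + e) * ((t + 1) * q t) := by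
        refine mul_le_mul_of_nonneg_right ?_ (by positivity)
        nlinarith

theorem pf_SL2 (hSLB : T_SLB) : T_SL2 := by
  intro q hq hpos hsv
  obtain ⟨B, hB1, hB⟩ := hSLB q hq hpos (by
    obtain ⟨n₀, hn₀⟩ := hsv 3 (1 / 4) (by norm_num) (by norm_num)
    refine ⟨n₀, fun n s h1 h2 h3 => ?_⟩
    have := hn₀ n s h1 h2 h3
    linarith)
  have one : ∀ e : ℝ, 0 < e → ∃ t₀ : ℕ, ∀ t, t₀ ≤ t →
      ∑ s ∈ range (t + 1), q s ≤ (1 + e) * ((t + 1) * q t) := by
    intro e he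
    obtain ⟨t₀, ht₀⟩ := sl2_one q hq hpos hsv B hB1 hB (min e 1) (lt_min he one_pos)
      (min_le_right _ _)
    refine ⟨t₀, fun t ht => (ht₀ t ht).trans ?_⟩
    refine mul_le_mul_of_nonneg_right ?_ (mul_nonneg (by positivity) (hpos t).le)
    linarith [min_le_left e 1]
  refine ⟨one, ?_⟩
  intro M e hM he
  set d : ℝ := min e 1 / 4 with hd
  have hd0 : 0 < d := by positivity
  have hd1 : (1 + d) * (1 + d) ≤ 1 + e := by
    have h1 : min e 1 ≤ e := min_le_left _ _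
    have h2 : min e 1 ≤ 1 := min_le_right _ _
    have h3 : 0 < min e 1 := lt_min he one_pos
    rw [hd]
    nlinarith
  obtain ⟨m₀, hm₀⟩ := one d hd0
  obtain ⟨n₁, hn₁⟩ := hsv M d hM hd0
  refine ⟨M * (m₀ + n₁ + 1), ?_⟩
  intro t m ht hmt htm
  have hm1 : m₀ + n₁ + 1 ≤ m := by
    have := ht.trans htm
    exact Nat.le_of_mul_le_mul_left this (by omega)
  have h1 := hm₀ m (by omega)
  have h2 := hn₁ m t (by omega) hmt htm
  have h3 : ((t : ℝ) + 1) * q t ≤ ∑ s ∈ range (t + 1), q s := by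
    calc ((t : ℝ) + 1) * q t = ∑ _s ∈ range (t + 1), q t := by
          rw [sum_const, card_range, nsmul_eq_mul]
          push_cast
          ring
      _ ≤ _ := by
          refine sum_le_sum fun s hs => ?_
          rw [mem_range] at hs
          exact hq (by omega)
  have hm0 : (0 : ℝ) ≤ (m : ℝ) + 1 := by positivity
  have ht0 : (0 : ℝ) ≤ (t : ℝ) + 1 := by positivity
  calc (∑ s ∈ range (m + 1), q s) * ((t : ℝ) + 1)
      ≤ ((1 + d) * ((m + 1) * q m)) * (t + 1) := mul_le_mul_of_nonneg_right h1 ht0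
    _ ≤ ((1 + d) * ((m + 1) * ((1 + d) * q t))) * (t + 1) := by
        refine mul_le_mul_of_nonneg_right ?_ ht0
        refine mul_le_mul_of_nonneg_left ?_ (by positivity)
        exact mul_le_mul_of_nonneg_left h2 hm0
    _ = ((1 + d) * (1 + d)) * ((m + 1) * ((t + 1) * q t)) := by ring
    _ ≤ ((1 + d) * (1 + d)) * ((m + 1) * ∑ s ∈ range (t + 1), q s) := by
        refine mul_le_mul_of_nonneg_left ?_ (by positivity)
        exact mul_le_mul_of_nonneg_left h3 hm0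
    _ ≤ (1 + e) * ((m + 1) * ∑ s ∈ range (t + 1), q s) := by
        refine mul_le_mul_of_nonneg_right hd1 ?_
        exact mul_nonneg hm0 (sum_nonneg fun s _ => (hpos s).le)

end Pool.Agent.H20.TAS
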