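import Pool.Agent.H4.TA.Targets

set_option autoImplicit false

namespace Pool.Agent.H20.TAS

open Finset Pool.Agent.H43.TC Pool.Agent.H4.TA

/-- The sign of a bit. -/
def sgz (e : Bool) : ℤ := if e then 1 else -1

theorem cnt_eq (j : ℕ) (p : Fin j → Prop) [DecidablePred p] :
    (univ.filter fun ε : Fin j → Bool => ∑ l, (if p l then sgz (ε l) else 0) = 0).card =
      (univ.filter fun f : Fin (Fintype.card {l // p l}) → Bool => ∑ l, sgz (f l) = 0).card *
        2 ^ (j - Fintype.card {l // p l}) := by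
  have h1 : (univ.filter fun ε : Fin j → Bool => ∑ l, (if p l then sgz (ε l) else 0) = 0).card =
      ((univ.filter fun f : {l // p l} → Bool => ∑ l, sgz (f l) = 0) ×ˢ
        (univ : Finset ({l // ¬ p l} → Bool))).card := by
    refine Finset.card_equiv (Equiv.piEquivPiSubtypeProd p (fun _ => Bool)) ?_
    intro ε
    have h2 : ∑ l, (if p l then sgz (ε l) else 0) = ∑ l : {l // p l}, sgz (ε l) := by
      rw [← Finset.sum_filter]
      exact Finset.sum_subtype _ (by simp) _
    simp only [mem_filter, mem_univ, true_and, mem_product, and_true]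
    rw [h2]
    rfl
  have h3 : (univ.filter fun f : {l // p l} → Bool => ∑ l, sgz (f l) = 0).card =
      (univ.filter fun f : Fin (Fintype.card {l // p l}) → Bool => ∑ l, sgz (f l) = 0).card := by
    refine Finset.card_equiv (Equiv.arrowCongr (Fintype.equivFin _) (Equiv.refl Bool)) ?_
    intro f
    simp only [mem_filter, mem_univ, true_and, Equiv.arrowCongr_apply, Equiv.coe_refl,
      Function.comp_apply, id_eq]
    rw [Equiv.sum_comp (Fintype.equivFin {l // p l}).symm (fun l => sgz (f l))]
  rw [h1, card_product, h3]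
  congr 1
  rw [card_univ, Fintype.card_fun, Fintype.card_bool, Fintype.card_subtype_compl,
    Fintype.card_fin]

theorem cnt_le (hSGN : T_SGN) (j : ℕ) (p : Fin j → Prop) [DecidablePred p] :
    ((univ.filter fun ε : Fin j → Bool =>
      ∑ l, (if p l then sgz (ε l) else 0) = 0).card : ℝ) ^ 2 *
      (((univ.filter p).card : ℝ) + 1) ≤ 4 ^ j := by
  have h0 : (univ.filter p).card = Fintype.card {l // p l} := by
    rw [Fintype.card_subtype]
  have hle : Fintype.card {l // p l} ≤ j := by
    have := Fintype.card_subtype_le p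
    rwa [Fintype.card_fin] at this
  rw [cnt_eq, h0]
  set n := Fintype.card {l // p l} with hn
  have h1 := hSGN n
  have h2 : ((univ.filter fun f : Fin n → Bool => ∑ l, sgz (f l) = 0).card : ℝ) ^ 2 *
      (n + 1) ≤ 4 ^ n := h1
  push_cast
  calc (((univ.filter fun f : Fin n → Bool => ∑ l, sgz (f l) = 0).card : ℝ) *
        2 ^ (j - n)) ^ 2 * (n + 1)
      = (((univ.filter fun f : Fin n → Bool => ∑ l, sgz (f l) = 0).card : ℝ) ^ 2 * (n + 1)) *
        4 ^ (j - n) := by
        rw [mul_pow, ← pow_mul, mul_comm (j - n) 2, pow_mul]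
        norm_num
        ring
    _ ≤ 4 ^ n * 4 ^ (j - n) := mul_le_mul_of_nonneg_right h2 (by positivity)
    _ = 4 ^ j := by
        rw [← pow_add]
        congr 1
        omega

theorem both_le (j : ℕ) (p : Fin j → Prop) [DecidablePred p] (P Q : (Fin j → Bool) → Prop)
    [DecidablePred P] [DecidablePred Q]
    (hP : ∀ ε ε', (∀ l, p l → ε l = ε' l) → P ε → P ε')
    (hQ : ∀ ε ε', (∀ l, ¬ p l → ε l = ε' l) → Q ε → Q ε') :
    (univ.filter fun ε => P ε ∧ Q ε).card * 2 ^ j ≤
      (univ.filter P).card * (univ.filter Q).card := by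
  have h1 : (univ.filter fun ε => P ε ∧ Q ε).card * 2 ^ j =
      ((univ.filter fun ε => P ε ∧ Q ε) ×ˢ (univ : Finset (Fin j → Bool))).card := by
    rw [card_product, card_univ, Fintype.card_fun, Fintype.card_bool, Fintype.card_fin]
  rw [h1, ← card_product]
  let mx : (Fin j → Bool) → (Fin j → Bool) → Fin j → Bool := fun x y l =>
    if p l then x l else y l
  refine Finset.card_le_card_of_injOn (fun z => (mx z.1 z.2, mx z.2 z.1)) ?_ ?_
  · rintro ⟨x, y⟩ hxy
    simp only [coe_product, coe_filter, mem_univ, true_and, coe_univ, Set.mem_prod,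
      Set.mem_ofPred_eq, Set.mem_univ, and_true] at hxy ⊢
    refine ⟨hP x _ ?_ hxy.1, hQ x _ ?_ hxy.2⟩
    · intro l hl
      simp [mx, hl]
    · intro l hl
      simp [mx, hl]
  · rintro ⟨x, y⟩ - ⟨x', y'⟩ - h
    simp only [Prod.mk.injEq] at h ⊢
    obtain ⟨h2, h3⟩ := h
    constructor
    · funext l
      by_cases hl : p l
      · have := congrFun h2 l
        simpa [mx, hl] using this
      · have := congrFun h3 l
        simpa [mx, hl] using this
    · funext l
      by_cases hl : p l
      · have := congrFun h3 l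
        simpa [mx, hl] using this
      · have := congrFun h2 l
        simpa [mx, hl] using this

theorem pos_coord {k j : ℕ} (d : Fin j → Fin k) (ε : Fin j → Bool) (a : Fin k) :
    pos (fun l => (d l, ε l) : Wd k j) j a = ∑ l, (if d l = a then sgz (ε l) else 0) := by
  unfold pos
  rw [Finset.sum_apply]
  refine Finset.sum_congr rfl fun l _ => ?_
  rw [if_pos l.2]
  show stp (d l, ε l) a = _
  generalize ε l = e
  by_cases h : d l = a
  · subst h
    cases e <;> simp [stp, un, sgz]
  · have h2 : (Pi.single (d l) 1 : Fin k → ℤ) a = 0 := Pi.single_eq_of_ne (Ne.symm h) 1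
    cases e <;> simp [stp, un, h2, h]

theorem pf_TWO (hSGN : T_SGN) : T_TWO := by
  classical
  intro k j d a b hab
  have h1 := cnt_le hSGN j (fun l => d l = a)
  have h2 := cnt_le hSGN j (fun l => d l = b)
  have h3 := both_le j (fun l => d l = a)
    (fun ε => ∑ l, (if d l = a then sgz (ε l) else 0) = 0)
    (fun ε => ∑ l, (if d l = b then sgz (ε l) else 0) = 0)
    (by
      intro ε ε' h hP
      refine Eq.trans (Finset.sum_congr rfl fun l _ => ?_) hP
      by_cases hl : d l = a
      · rw [if_pos hl, if_pos hl, h l hl]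
      · rw [if_neg hl, if_neg hl])
    (by
      intro ε ε' h hQ
      refine Eq.trans (Finset.sum_congr rfl fun l _ => ?_) hQ
      by_cases hl : d l = b
      · rw [if_pos hl, if_pos hl, h l (fun h9 => hab (h9.symm.trans hl))]
      · rw [if_neg hl, if_neg hl])
  have h4 : ∑ ε : Fin j → Bool, ind (pos (fun l => (d l, ε l) : Wd k j) j = 0) ≤
      ((univ.filter fun ε : Fin j → Bool =>
        (∑ l, (if d l = a then sgz (ε l) else 0) = 0) ∧
        ∑ l, (if d l = b then sgz (ε l) else 0) = 0).card : ℝ) := by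
    rw [Finset.card_filter]
    push_cast
    refine Finset.sum_le_sum fun ε _ => ?_
    unfold ind
    by_cases h : pos (fun l => (d l, ε l) : Wd k j) j = 0
    · rw [if_pos h]
      have ha := congrFun h a
      have hb := congrFun h b
      rw [pos_coord] at ha hb
      rw [if_pos ⟨ha, hb⟩]
    · rw [if_neg h]
      positivity
  refine h4.trans ?_
  set ca : ℝ := ((univ.filter fun ε : Fin j → Bool =>
    ∑ l, (if d l = a then sgz (ε l) else 0) = 0).card : ℝ) with hca
  set cb : ℝ := ((univ.filter fun ε : Fin j → Bool =>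
    ∑ l, (if d l = b then sgz (ε l) else 0) = 0).card : ℝ) with hcb
  set cc : ℝ := ((univ.filter fun ε : Fin j → Bool =>
    (∑ l, (if d l = a then sgz (ε l) else 0) = 0) ∧
    ∑ l, (if d l = b then sgz (ε l) else 0) = 0).card : ℝ) with hcc
  have h5 : cc * 2 ^ j ≤ ca * cb := by
    rw [hca, hcb, hcc]
    exact_mod_cast h3
  have hda : ((univ.filter fun l => d l = a).card : ℝ) = dn d a := rfl
  have hdb : ((univ.filter fun l => d l = b).card : ℝ) = dn d b := rfl
  rw [hda] at h1
  rw [hdb] at h2
  have hA : (0 : ℝ) < (dn d a : ℝ) + 1 := by positivity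
  have hB : (0 : ℝ) < (dn d b : ℝ) + 1 := by positivity
  have h6 : ca ^ 2 ≤ 4 ^ j / ((dn d a : ℝ) + 1) := by
    rw [le_div_iff₀ hA]
    exact h1
  have h7 : cb ^ 2 ≤ 4 ^ j / ((dn d b : ℝ) + 1) := by
    rw [le_div_iff₀ hB]
    exact h2
  have h2j : (0 : ℝ) < 2 ^ j := by positivity
  have h4j : (4 : ℝ) ^ j = 2 ^ j * 2 ^ j := by
    rw [← mul_pow]
    norm_num
  rw [← mul_le_mul_iff_left₀ h2j]
  calc cc * 2 ^ j ≤ ca * cb := h5
    _ ≤ (ca ^ 2 + cb ^ 2) / 2 := by nlinarith [sq_nonneg (ca - cb)]
    _ ≤ (4 ^ j / ((dn d a : ℝ) + 1) + 4 ^ j / ((dn d b : ℝ) + 1)) / 2 := by linarith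
    _ = 2 ^ j * (1 / (2 * ((dn d a : ℝ) + 1)) + 1 / (2 * ((dn d b : ℝ) + 1))) * 2 ^ j := by
        rw [h4j]
        field_simp

end Pool.Agent.H20.TAS
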